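import Pool.Agent.H442Z.GP.Cons

set_option autoImplicit false

namespace Pool.Agent.Results.MP_2c58a9_co.AUnitBalls

open Pool.Agent.H442Z.GP

/-- In `R^3`, for every `ρ ≥ 1` and every `m`, there is a `1`-separated family of compact convex
`ρ`-stubby sets (in fact of closed unit balls) with at least `m` geometric permutations. -/
theorem result (ρ : ℝ) (hρ : 1 ≤ ρ) (m : ℕ) :
    ∃ (n : ℕ) (A : Fin n → Set (E 3)),
      (∀ i, IsCompact (A i) ∧ Convex ℝ (A i) ∧ Stubby ρ (A i) ∧ ∃ c, A i = Metric.closedBall c 1) ∧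
      Separated 1 A ∧ m ≤ (geomPerms A).ncard := by
  obtain ⟨c, h1, h2⟩ := main (m + 1) (by omega)
  refine ⟨_, _, fun i => ⟨isCompact_closedBall _ _, convex_closedBall _ _,
    ⟨⟨c i, subset_rfl⟩, ⟨c i, Metric.closedBall_subset_closedBall hρ⟩⟩, c i, rfl⟩, h1, by omega⟩

end Pool.Agent.Results.MP_2c58a9_co.AUnitBalls
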